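import Pool.Agent.Helper79.AL.St3

/-!
# Project AL (MP_2b6189_al), module CEF: centralisers are fusion subsets
-/

set_option autoImplicit false

namespace Pool.Agent.Helper18.AL

open Matrix ComplexConjugate Pool.Agent.Helper94.YG
open Pool.Agent.Helper94.YF hiding StORB
open Pool.Agent.Helper89.OS Pool.Agent.Helper89.OC Pool.Agent.Helper79.AL

theorem ce_iff {I : Type} [Fintype I] [DecidableEq I] (Z : CentreData I) (hA : GLA Z)
    (E : I → Prop) (j : I) : Ce Z E j ↔ ∀ i, E i → Cchi Z i j = Z.d j := by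
  unfold Ce
  refine forall_congr' fun i => imp_congr_right fun _ => ?_
  have hd : (Z.d i : ℂ) ≠ 0 := by exact_mod_cast (Z.d_pos i).ne'
  rw [hA.Sf_chi]
  exact mul_right_inj' hd

theorem hCEF : StCEF := by
  intro hGA hGB hGC I _ _ Z E
  have hA := hGA I Z
  have hC := hGC hGA hGB I Z
  have hD := Helper88.YF.hDUA I Z.toCentreRep
  have hfs : FS Z (Ce Z E) := by
    refine ⟨?_, ?_, ?_⟩
    · rw [ce_iff Z hA]
      intro i _
      rw [hA.chi_o, Z.d_o, Nat.cast_one]
    · intro j hj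
      rw [ce_iff Z hA] at hj ⊢
      intro i hi
      rw [hA.chi_st, hj i hi, hD.2.2.1 j]
      exact Complex.conj_natCast _
    · intro j k v hj hk hN
      rw [ce_iff Z hA] at hj hk ⊢
      intro i hi
      exact hA.clos i j k v (hj i hi) (hk i hi) hN
  refine ⟨hfs, ?_⟩
  intro hodd hno hE x hx hcx
  by_contra hxo
  apply hno
  refine ⟨fun y => E y ∧ Ce Z E y, ?_⟩
  constructor
  · exact ⟨hE.o, hfs.o⟩
  · exact ⟨x, ⟨hx, hcx⟩, hxo⟩
  · intro y hy
    exact ⟨hE.st y hy.1, hfs.st y hy.2⟩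
  · intro a b c ha hb hN
    exact ⟨hE.fus a b c ha.1 hb.1 hN, hfs.fus a b c ha.2 hb.2 hN⟩
  · intro y hy
    apply hC.self hodd
    rw [hy.2 y hy.1]
    ring
  · intro a b ha hb
    exact hb.2 a ha.1

end Pool.Agent.Helper18.AL
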